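import Pool.Agent.Helper695_SR.Base

/-!
# The synchronizing ratio of digraphs with a coarsest balanced partition

Every primitive `k`-out-regular digraph has synchronizing ratio at least `1 - 1 / k` if its vertex
set has no partition into at least two classes of equal stationary weight, or if there is a
coarsest such partition. In particular this holds, for all `k`, if there are at most three
vertices, if the total weight is a prime number (for example for digraphs of prime order all of
whose vertices have in-degree `k`), and if some vertex has at least half of the total weight.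
-/

set_option autoImplicit false

namespace Pool.Agent.Results.MP_b0a4d3_co.BalancedPartitions

open Pool.Agent.Helper695.SR

universe u

theorem result {V : Type u} [Fintype V] {k : ℕ} (hk : 2 ≤ k) (out : V → Fin k → V)
    (hp : Primitive out) :
    (∃ w : V → ℕ, w ≠ 0 ∧ Stationary out w) ∧
    (∀ w : V → ℕ, w ≠ 0 → Stationary out w →
      ((∀ s₀ : Setoid V, Balanced w s₀ →
          ∃ Q : Setoid V, Balanced w Q ∧ ∀ s, Balanced w s → ∀ u v, s.r u v → Q.r u v) →
        1 - 1 / (k : ℝ) ≤ ratio out) ∧
      ((∑ v, w v).Prime → 1 - 1 / (k : ℝ) ≤ ratio out) ∧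
      ((∃ v₀, ∑ v, w v ≤ 2 * w v₀) → 1 - 1 / (k : ℝ) ≤ ratio out)) ∧
    (Fintype.card V ≤ 3 → 1 - 1 / (k : ℝ) ≤ ratio out) ∧
    ((Fintype.card V).Prime → (∀ u, Nat.card {e : V × Fin k // out e.1 e.2 = u} = k) →
      1 - 1 / (k : ℝ) ≤ ratio out) := by
  classical
  have hk0 : 0 < k := by omega
  have hV : Nonempty V := by
    by_contra hV
    rw [not_nonempty_iff] at hV
    have := hp.2 2 (fun n v _ => (hV.false v).elim)
    omega
  refine ⟨exists_stationary out, fun w hne hw => ⟨main hk0 out hp w hw hne,
    prime_total hk0 out hp w hw, fun ⟨v₀, hv₀⟩ => heavy hk0 out hp w hw hne v₀ hv₀⟩,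
    three hk0 out hp, fun hprime hin => ?_⟩
  apply prime_total hk0 out hp (fun _ => 1)
  · intro u
    have h := hin u
    rw [Nat.card_eq_fintype_card, Fintype.card_subtype, Finset.card_filter,
      Fintype.sum_prod_type] at h
    rw [mul_one]
    convert h using 4
  · simpa using hprime

end Pool.Agent.Results.MP_b0a4d3_co.BalancedPartitions
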