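import Pool.Agent.Helper695_SR.Poly

/-!
# The synchronizing ratio for many colors

For every `n`, and for all `k ≥ n ^ 12`, every primitive `k`-out-regular digraph with `n` vertices
has synchronizing ratio at least `1 - 1 / k`. The same holds for `k > n ^ 8 + n * 2 ^ (n + 1)`, which
is the weaker assumption if `n` is small.
-/

set_option autoImplicit false

namespace Pool.Agent.Results.MP_b0a4d3_co.ManyColors

open Pool.Agent.Helper695.SR

universe u

theorem result {V : Type u} [Fintype V] {k : ℕ}
    (hk : Fintype.card V ^ 12 ≤ k ∨
      Fintype.card V ^ 8 + Fintype.card V * 2 ^ (Fintype.card V + 1) < k)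
    (out : V → Fin k → V) (hp : Primitive out) :
    1 - 1 / (k : ℝ) ≤ ratio out := by
  rcases hk with hk | hk
  · have hV : Nonempty V := by
      by_contra hV
      rw [not_nonempty_iff] at hV
      have := hp.2 2 (fun n v _ => (hV.false v).elim)
      omega
    have h1 : 0 < Fintype.card V ^ 12 := Nat.pow_pos Fintype.card_pos
    exact poly (by omega) out hp hk
  · exact large out hp hk

end Pool.Agent.Results.MP_b0a4d3_co.ManyColors
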